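import Pool.Agent.Helper57.REC.StmtsX
import Pool.Agent.Helper72.REC.CMP
import Pool.Agent.Helper60.REC.TRP
import Pool.Agent.Helper35.MU.FRB

/-!
# REC, part 12X: rows XDN, XTR, XEQ   [helper39]
-/

set_option autoImplicit false

open scoped Classical
open NumberField Polynomial

namespace REC

open Pool.Agent.Helper13.ZL (Pl q)
open MU
open Pool.Agent.Helper72.REC.C2 (dens)
open Pool.Agent.Helper60.REC8 (exists_openNormal)

/-! ## Basic facts -/

/-- homomorphisms from the `l`-adic integers to fields of characteristic zero are injective -/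
theorem xb_theta_inj {l : ℕ} [Fact l.Prime] {Ω : Type} [Field Ω] [CharZero Ω]
    (ϑ : ℤ_[l] →+* Ω) : Function.Injective ϑ := by
  rw [injective_iff_map_eq_zero]
  intro x hx
  by_contra hne
  have h1 := PadicInt.unitCoeff_spec hne
  have h2 : ϑ (PadicInt.unitCoeff hne : ℤ_[l]) * (l : Ω) ^ x.valuation = 0 := by
    rw [← hx]
    conv_rhs => rw [h1]
    rw [map_mul, map_pow, map_natCast]
  have h3 : ϑ (PadicInt.unitCoeff hne : ℤ_[l]) ≠ 0 :=
    ((PadicInt.unitCoeff hne).isUnit.map ϑ).ne_zero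
  have h4 : (l : Ω) ≠ 0 := by
    exact_mod_cast (Fact.out : l.Prime).ne_zero
  exact (mul_ne_zero h3 (pow_ne_zero _ h4)) h2

/-- homomorphisms from rings of integers to fields of characteristic zero are injective -/
theorem xb_iota_inj {L : Type} [Field L] [NumberField L] {Ω : Type} [Field Ω] [CharZero Ω]
    (ι : 𝓞 L →+* Ω) : Function.Injective ι := by
  rw [injective_iff_map_eq_zero]
  intro z hz
  by_contra hz0
  have h1 : Ideal.absNorm (Ideal.span {z}) ≠ 0 := by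
    rw [Ne, Ideal.absNorm_eq_zero_iff, Ideal.span_singleton_eq_bot]
    exact hz0
  have h2 : ((Ideal.absNorm (Ideal.span {z}) : ℕ) : 𝓞 L) ∈ Ideal.span {z} :=
    Ideal.absNorm_mem _
  rw [Ideal.mem_span_singleton] at h2
  obtain ⟨y, hy⟩ := h2
  have h3 : ((Ideal.absNorm (Ideal.span {z}) : ℕ) : Ω) = 0 := by
    rw [← map_natCast ι, hy, map_mul, hz, zero_mul]
  exact h1 (by exact_mod_cast h3)

/-- elements in infinitely many prime ideals are zero -/
theorem xb_zero {L : Type} [Field L] [NumberField L] (z : 𝓞 L)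
    (h : ∀ c : ℕ, ∃ l : ℕ, c < l ∧ l.Prime ∧ ∃ (Ω : Type) (_ : Field Ω) (ι : 𝓞 L →+* Ω),
      (l : Ω) = 0 ∧ ι z = 0) : z = 0 := by
  by_contra hz0
  obtain ⟨l, hcl, hlp, Ω, _, ι, hl, hz⟩ := h (Ideal.absNorm (Ideal.span {z}))
  have h1 : Ideal.absNorm (Ideal.span {z}) ≠ 0 := by
    rw [Ne, Ideal.absNorm_eq_zero_iff, Ideal.span_singleton_eq_bot]
    exact hz0
  have h2 : ((Ideal.absNorm (Ideal.span {z}) : ℕ) : 𝓞 L) ∈ Ideal.span {z} :=
    Ideal.absNorm_mem _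
  rw [Ideal.mem_span_singleton] at h2
  obtain ⟨y, hy⟩ := h2
  have h3 : ((Ideal.absNorm (Ideal.span {z}) : ℕ) : Ω) = 0 := by
    rw [← map_natCast ι, hy, map_mul, hz, zero_mul]
  have h4 : Nat.gcd (Ideal.absNorm (Ideal.span {z})) l = 1 := by
    have h5 : Nat.Coprime l (Ideal.absNorm (Ideal.span {z})) := by
      rw [Nat.Prime.coprime_iff_not_dvd hlp]
      intro hd
      exact absurd (Nat.le_of_dvd (Nat.pos_of_ne_zero h1) hd) (not_le.2 hcl)
    exact h5.symm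
  have h6 := Nat.gcd_eq_gcd_ab (Ideal.absNorm (Ideal.span {z})) l
  rw [h4] at h6
  have h7 : (1 : Ω) = 0 := by
    have h8 : ((1 : ℤ) : Ω) = 0 := by
      have h9 : ((1 : ℕ) : ℤ) = 1 := rfl
      rw [← h9, h6]
      push_cast
      rw [h3, hl, zero_mul, zero_mul, add_zero]
    simp at h8
  exact one_ne_zero h7

theorem xb_PQ {n m : ℕ} {L : Type} [Field L] [NumberField L] (b : Blo n m L) {Ω : Type}
    [Field Ω] (ι : 𝓞 L →+* Ω) :
    b.P.map ι * b.Q.map ι = (b.N : Ω) • (1 : Matrix (Fin m) (Fin m) Ω) := by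
  rw [← Matrix.map_mul, b.PQ, Matrix.map_smul' _ _ _ (map_mul _), map_natCast,
      Matrix.map_one _ (map_zero _) (map_one _)]

/-- (F1) -/
theorem xb_F1 {n m : ℕ} {L : Type} [Field L] [NumberField L] {b : Blo n m L} {G : Type} [Group G]
    {l : ℕ} [Fact l.Prime] {Ω : Type} [Field Ω] {r : G →* Matrix.GeneralLinearGroup (Fin n) ℤ_[l]}
    {ϑ : ℤ_[l] →+* Ω} {ι : 𝓞 L →+* Ω} {R : G →* Matrix (Fin m) (Fin m) Ω} (h : b.At r ϑ ι R)
    (g : G) : R g = (b.N : Ω)⁻¹ •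
      (b.P.map ι * (r g : Matrix (Fin n) (Fin n) ℤ_[l]).map ϑ * b.Q.map ι) := by
  rw [h.2 g, Matrix.mul_assoc, xb_PQ, Matrix.mul_smul, Matrix.mul_one, smul_smul,
    inv_mul_cancel₀ h.1, one_smul]

theorem xb_alg {l : ℕ} [Fact l.Prime] {Ω : Type} [Field Ω] [CharZero Ω]
    (ϑ : ℤ_[l] →+* Ω) : ∃ ϑ' : ℚ_[l] →+* Ω, ∀ x : ℤ_[l], ϑ' (x : ℚ_[l]) = ϑ x := by
  refine ⟨IsFractionRing.lift (xb_theta_inj ϑ), fun x => ?_⟩
  exact IsFractionRing.lift_algebraMap (xb_theta_inj ϑ) x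

theorem xb_cont {F : Type} [Field F] [NumberField F] {n l : ℕ} [Fact l.Prime]
    {r : Gal F →* Matrix.GeneralLinearGroup (Fin n) ℤ_[l]} (hr : Continuous r) (i j : Fin n) :
    Continuous fun g => (r g : Matrix (Fin n) (Fin n) ℤ_[l]) i j := by
  have h1 : Continuous fun g => (r g : Matrix (Fin n) (Fin n) ℤ_[l]) :=
    Units.continuous_val.comp hr
  exact (continuous_apply_apply i j).comp h1

/-! ## XDN -/

theorem st_XDN : ST_XDN := by
  intro F _ _ n l _ r hr Ω _ _ ϑ Y S hfr g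
  obtain ⟨ϑ', hϑ'⟩ := xb_alg ϑ
  let _ : Algebra ℚ_[l] Ω := ϑ'.toAlgebra
  have hϑ : ∀ x : ℤ_[l], ϑ x = algebraMap ℚ_[l] Ω (x : ℚ_[l]) := fun x => (hϑ' x).symm
  rw [← Module.forall_dual_apply_eq_zero_iff ℚ_[l]]
  intro f
  have key : ∀ x : Fin n × Fin n → ℤ_[l], f (MvPolynomial.eval (fun i => ϑ (x i)) Y) =
      ∑ d ∈ Y.support, (((∏ i ∈ d.support, x i ^ d i : ℤ_[l]) : ℚ_[l])) * f (Y.coeff d) := by
    intro x
    rw [MvPolynomial.eval_eq, map_sum]
    refine Finset.sum_congr rfl fun d _ => ?_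
    have h1 : (∏ i ∈ d.support, ϑ (x i) ^ d i) =
        algebraMap ℚ_[l] Ω ((∏ i ∈ d.support, x i ^ d i : ℤ_[l]) : ℚ_[l]) := by
      rw [← hϑ, map_prod]
      exact Finset.prod_congr rfl fun i _ => (map_pow _ _ _).symm
    rw [h1, mul_comm, ← Algebra.smul_def, map_smul, smul_eq_mul]
  rw [key]
  refine dens MU.st_FRB S {g : Gal F | ∑ d ∈ Y.support,
    (((∏ i ∈ d.support, ((r g : Matrix (Fin n) (Fin n) ℤ_[l]) i.1 i.2) ^ d i : ℤ_[l]) : ℚ_[l])) *
      f (Y.coeff d) = 0} ?_ ?_ g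
  · refine isClosed_eq (continuous_finsetSum _ fun d _ => ?_) continuous_const
    refine Continuous.mul ?_ continuous_const
    have h2 : Continuous fun g : Gal F => (∏ i ∈ d.support,
        ((r g : Matrix (Fin n) (Fin n) ℤ_[l]) i.1 i.2) ^ d i : ℤ_[l]) :=
      continuous_finsetProd _ fun i _ => (xb_cont hr i.1 i.2).pow _
    exact continuous_subtype_val.comp h2
  · intro p 𝔓 k σ hp hpS hov hk hc
    rw [Set.mem_ofPred_eq, ← key, hfr p 𝔓 k σ hp hpS hov hk hc, map_zero]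

end REC
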