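import Pool.Agent.Helper39.REC.XDN

/-!
# REC, part 12X: row XEQ   [helper39]
-/

set_option autoImplicit false

open scoped Classical
open NumberField Polynomial

namespace REC

open Pool.Agent.Helper13.ZL (Pl q)
open MU

theorem xeq_monic {A Ω : Type} [CommRing A] [Field Ω] (ι : A →+* Ω) (hι : Function.Injective ι)
    {m : ℕ} (M : Matrix (Fin m) (Fin m) Ω) (Φ : A[X]) (h : M.charpoly = Φ.map ι) : Φ.Monic := by
  apply Polynomial.monic_of_injective hι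
  rw [← h]
  exact Matrix.charpoly_monic _

theorem xeq_trace {A Ω : Type} [CommRing A] [Field Ω] (ι : A →+* Ω)
    {m : ℕ} (M : Matrix (Fin m) (Fin m) Ω) (Φ : A[X]) (hΦ : Φ.Monic)
    (h : M.charpoly = Φ.map ι) : M.trace = - ι Φ.nextCoeff := by
  rw [Matrix.trace_eq_neg_charpoly_nextCoeff, h,
    Polynomial.nextCoeff_map_of_leadingCoeff_ne_zero]
  rw [hΦ.leadingCoeff, map_one]
  exact one_ne_zero

/-- the trace as a linear function -/
theorem xeq_lin {n m : ℕ} {L : Type} [Field L] [NumberField L] {b : Blo n m L} {G : Type} [Group G]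
    {l : ℕ} [Fact l.Prime] {Ω : Type} [Field Ω] {r : G →* Matrix.GeneralLinearGroup (Fin n) ℤ_[l]}
    {ϑ : ℤ_[l] →+* Ω} {ι : 𝓞 L →+* Ω} {R : G →* Matrix (Fin m) (Fin m) Ω} (h : b.At r ϑ ι R)
    (g : G) : (R g).trace = MvPolynomial.eval (fun i : Fin n × Fin n =>
      ϑ ((r g : Matrix (Fin n) (Fin n) ℤ_[l]) i.1 i.2)) (∑ i : Fin n, ∑ j : Fin n,
        MvPolynomial.C (((b.N : Ω)⁻¹ • (b.Q.map ι * b.P.map ι)) i j) *
          MvPolynomial.X (j, i)) := by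
  rw [map_sum, xb_F1 h g]
  have h1 : ((b.N : Ω)⁻¹ • (b.P.map ι * (r g : Matrix (Fin n) (Fin n) ℤ_[l]).map ϑ *
      b.Q.map ι)).trace = (((b.N : Ω)⁻¹ • (b.Q.map ι * b.P.map ι)) *
        (r g : Matrix (Fin n) (Fin n) ℤ_[l]).map ϑ).trace := by
    rw [Matrix.trace_smul, Matrix.smul_mul, Matrix.trace_smul]
    congr 1
    rw [Matrix.trace_mul_comm, ← Matrix.mul_assoc]
  rw [h1, Matrix.trace]
  refine Finset.sum_congr rfl fun i _ => ?_
  rw [Matrix.diag_apply, Matrix.mul_apply, map_sum]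
  refine Finset.sum_congr rfl fun j _ => ?_
  rw [map_mul, MvPolynomial.eval_C, MvPolynomial.eval_X, Matrix.map_apply]

theorem st_XEQ (hXDN : ST_XDN) : ST_XEQ := by
  intro F L _ _ _ _ n m m' b b' S ρ hcont hcmp hcmp' hbad l _ Ω _ _ ϑ ι R R' hAt hAt' g
  have h1 := hXDN F n l (ρ l) (hcont l) Ω ϑ
    ((∑ i : Fin n, ∑ j : Fin n,
        MvPolynomial.C (((b.N : Ω)⁻¹ • (b.Q.map ι * b.P.map ι)) i j) *
          MvPolynomial.X (j, i)) - (∑ i : Fin n, ∑ j : Fin n,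
        MvPolynomial.C (((b'.N : Ω)⁻¹ • (b'.Q.map ι * b'.P.map ι)) i j) *
          MvPolynomial.X (j, i))) (insert l S) ?_ g
  · rw [map_sub, ← xeq_lin hAt, ← xeq_lin hAt', sub_eq_zero] at h1
    exact h1
  · intro p 𝔓 k σ hp hpS hover hk hcong
    rw [Finset.mem_insert, not_or] at hpS
    rw [map_sub, ← xeq_lin hAt, ← xeq_lin hAt', sub_eq_zero]
    obtain ⟨Φ, hΦ⟩ := hcmp p hp hpS.2 𝔓 hover k σ hk hcong
    obtain ⟨Φ', hΦ'⟩ := hcmp' p hp hpS.2 𝔓 hover k σ hk hcong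
    have e0 := hΦ l (Ne.symm hpS.1) Ω ϑ ι R hAt
    have e0' := hΦ' l (Ne.symm hpS.1) Ω ϑ ι R' hAt'
    have hm := xeq_monic ι (xb_iota_inj ι) _ Φ e0
    have hm' := xeq_monic ι (xb_iota_inj ι) _ Φ' e0'
    have hz : Φ.nextCoeff - Φ'.nextCoeff = 0 := by
      apply xb_zero
      intro c
      obtain ⟨l', hl'p, hcl, Ω', _, ϑ', ι', R₁, R₁', hl', hA, hA', htr⟩ := hbad (max c p)
      have hne : l' ≠ p := (lt_of_le_of_lt (le_max_right _ _) hcl).ne'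
      refine ⟨l', lt_of_le_of_lt (le_max_left _ _) hcl, hl'p.out, Ω', inferInstance, ι', hl', ?_⟩
      have f0 := xeq_trace ι' _ Φ hm (hΦ l' hne Ω' ϑ' ι' R₁ hA)
      have f1 := xeq_trace ι' _ Φ' hm' (hΦ' l' hne Ω' ϑ' ι' R₁' hA')
      have f2 := htr σ⁻¹
      rw [f0, f1, neg_inj] at f2
      rw [map_sub, f2, sub_self]
    rw [xeq_trace ι _ Φ hm e0, xeq_trace ι _ Φ' hm' e0', sub_eq_zero.1 hz]

end REC
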