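import Pool.Agent.Helper39.REC.XDN

/-!
# REC, part 12X: row XTR   [helper39]
-/

set_option autoImplicit false

open scoped Classical
open NumberField Polynomial

namespace REC

open Pool.Agent.Helper13.ZL (Pl q)
open MU
open Pool.Agent.Helper60.REC8 (exists_openNormal)

theorem xtr_aeval {A B : Type} [CommRing A] [CommRing B] (j : A →+* B) (Φ : A[X])
    (Y : MvPolynomial ℕ ℤ) : MvPolynomial.aeval (fun i => (Φ.map j).coeff i) Y =
      j (MvPolynomial.aeval (fun i => Φ.coeff i) Y) := by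
  rw [MvPolynomial.aeval_def, MvPolynomial.aeval_def, MvPolynomial.eval₂_comp_left]
  have h1 : j.comp (algebraMap ℤ A) = algebraMap ℤ B := RingHom.ext_int _ _
  rw [h1]
  congr 1
  funext i
  rw [Polynomial.coeff_map]
  rfl

/-- elements close to one act trivially on the reduction -/
theorem xtr_one {n m : ℕ} {L : Type} [Field L] [NumberField L] {b : Blo n m L} {G : Type} [Group G]
    {l : ℕ} [Fact l.Prime] {Ω : Type} [Field Ω] {r : G →* Matrix.GeneralLinearGroup (Fin n) ℤ_[l]}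
    {ϑ : ℤ_[l] →+* Ω} {ι : 𝓞 L →+* Ω} {R : G →* Matrix (Fin m) (Fin m) Ω} (hl : (l : Ω) = 0)
    (h : b.At r ϑ ι R) (g : G)
    (hg : ∀ i j, ‖(r g : Matrix (Fin n) (Fin n) ℤ_[l]) i j -
      (1 : Matrix (Fin n) (Fin n) ℤ_[l]) i j‖ < 1) : R g = 1 := by
  have h1 : (r g : Matrix (Fin n) (Fin n) ℤ_[l]).map ϑ = 1 := by
    ext i j
    have h2 := hg i j
    rw [PadicInt.norm_lt_one_iff_dvd] at h2
    obtain ⟨y, hy⟩ := h2
    have h3 : (r g : Matrix (Fin n) (Fin n) ℤ_[l]) i j =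
        (1 : Matrix (Fin n) (Fin n) ℤ_[l]) i j + (l : ℤ_[l]) * y := by
      rw [← hy]
      ring
    rw [Matrix.map_apply, h3, map_add, map_mul, map_natCast, hl, zero_mul, add_zero]
    rw [Matrix.one_apply, Matrix.one_apply]
    split_ifs
    · exact map_one _
    · exact map_zero _
  rw [xb_F1 h g, h1, Matrix.mul_one, xb_PQ, smul_smul, inv_mul_cancel₀ h.1, one_smul]

theorem st_XTR : ST_XTR := by
  intro F L _ _ _ _ n m b S ρ hcont hcmp U hU Y l₀ _ Ω₀ _ _ ϑ₀ ι₀ R₀ hAt₀ hid l _ Ω _ ϑ ι R hl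
    hAt σ hσ
  set V : Set (Gal F) := ((fun g => σ * g) ⁻¹' U) ∩
    ⋂ i, ⋂ j, {g | ‖(ρ l g : Matrix (Fin n) (Fin n) ℤ_[l]) i j -
      (1 : Matrix (Fin n) (Fin n) ℤ_[l]) i j‖ < 1} with hV
  have hVo : IsOpen V := by
    refine IsOpen.inter (IsOpen.preimage (continuous_const.mul continuous_id) hU) ?_
    refine isOpen_iInter_of_finite fun i => isOpen_iInter_of_finite fun j => ?_
    exact isOpen_lt ((xb_cont (hcont l) i j).sub continuous_const).norm continuous_const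
  have hV1 : (1 : Gal F) ∈ V := by
    refine ⟨?_, ?_⟩
    · rw [Set.mem_preimage, mul_one]
      exact hσ
    · rw [Set.mem_iInter]
      intro i
      rw [Set.mem_iInter]
      intro j
      rw [Set.mem_ofPred_eq, map_one, Units.val_one, sub_self, norm_zero]
      exact one_pos
  obtain ⟨Y0, hYn, hYo, hYV⟩ := exists_openNormal F V hVo hV1
  obtain ⟨p, 𝔓, k, φ, hp, hpS, hover, hk, hcong, hφ⟩ :=
    MU.st_FRB F Y0 hYn hYo (insert l (insert l₀ S)) σ⁻¹
  rw [inv_inv] at hφ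
  simp only [Finset.mem_insert, not_or] at hpS
  have h1 : σ⁻¹ * φ⁻¹ ∈ Y0 := by
    have h2 : φ⁻¹ * σ⁻¹ ∈ Y0 := by
      have := Y0.inv_mem hφ
      rwa [mul_inv_rev] at this
    exact (hYn.mem_comm_iff).mp h2
  have h2 := hYV h1
  have h3 : σ * (σ⁻¹ * φ⁻¹) = φ⁻¹ := by group
  have h4 : φ⁻¹ ∈ U := by
    have h5 := h2.1
    rw [Set.mem_preimage, h3] at h5
    exact h5
  have h6 : R (σ⁻¹ * φ⁻¹) = 1 := by
    refine xtr_one hl hAt _ fun i j => ?_
    have h7 := h2.2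
    rw [Set.mem_iInter] at h7
    have h8 := h7 i
    rw [Set.mem_iInter] at h8
    exact h8 j
  have h9 : R φ⁻¹ = R σ := by
    rw [← h3, map_mul, h6, mul_one]
  obtain ⟨Φ, hΦ⟩ := hcmp p hp hpS.2.2 𝔓 hover k φ hk hcong
  have e0 := hΦ l₀ (Ne.symm hpS.2.1) Ω₀ ϑ₀ ι₀ R₀ hAt₀
  have e1 := hΦ l (Ne.symm hpS.1) Ω ϑ ι R hAt
  have e2 := hid φ⁻¹ h4
  rw [e0, xtr_aeval] at e2
  have e3 : MvPolynomial.aeval (fun i => Φ.coeff i) Y = 0 := by
    apply xb_iota_inj ι₀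
    rw [e2, map_zero]
  rw [← h9, e1, xtr_aeval, e3, map_zero]

end REC
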